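import Pool.Agent.N495.TS.StmT

set_option autoImplicit false

namespace Pool.Agent.N342.TS

open Pool.Agent.N495.TS Polynomial

theorem fac_aux (n : ℕ) : ∀ F : Polynomial (Polynomial ℤ), F.natDegree ≤ n → F.Monic →
    (∀ r : Polynomial ℤ, F.eval r ≠ 0) →
    ∃ L : List (Polynomial (Polynomial ℤ)), L.prod = F ∧ ∀ G ∈ L, G.Monic ∧ 2 ≤ G.natDegree ∧
      Irreducible (G.map (algebraMap (Polynomial ℤ) (FractionRing (Polynomial ℤ)))) := by
  induction n with
  | zero =>
    intro F hn hF _
    have : F = 1 := Polynomial.eq_one_of_monic_natDegree_zero hF (Nat.le_zero.1 hn)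
    exact ⟨[], by rw [this]; rfl, fun G hG => by simp at hG⟩
  | succ n ih =>
    intro F hn hF hr
    by_cases h0 : F.natDegree = 0
    · exact ih F (by omega) hF hr
    · by_cases h1 : F.natDegree = 1
      · exfalso
        apply hr (-(F.coeff 0))
        have h2 := Polynomial.eq_X_add_C_of_natDegree_le_one (p := F) h1.le
        have h3 : F.coeff 1 = 1 := by
          have := hF.coeff_natDegree
          rwa [h1] at this
        rw [h2]
        simp [h3]
      · by_cases hi : Irreducible F
        · refine ⟨[F], by simp, fun G hG => ?_⟩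
          rw [List.mem_singleton] at hG
          subst hG
          exact ⟨hF, by omega, (Polynomial.Monic.irreducible_iff_irreducible_map_fraction_map hF).1 hi⟩
        · rw [hF.irreducible_iff_natDegree] at hi
          have hne : F ≠ 1 := fun h => h0 (by rw [h]; simp)
          push Not at hi
          obtain ⟨G, H, hG, hH, hGH, hG0, hH0⟩ := hi hne
          have hdeg : G.natDegree + H.natDegree = F.natDegree := by
            rw [← hGH, hG.natDegree_mul hH]
          have hrG : ∀ r : Polynomial ℤ, G.eval r ≠ 0 := by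
            intro r h
            apply hr r
            rw [← hGH, Polynomial.eval_mul, h, zero_mul]
          have hrH : ∀ r : Polynomial ℤ, H.eval r ≠ 0 := by
            intro r h
            apply hr r
            rw [← hGH, Polynomial.eval_mul, h, mul_zero]
          obtain ⟨L1, hL1, hL1'⟩ := ih G (by omega) hG hrG
          obtain ⟨L2, hL2, hL2'⟩ := ih H (by omega) hH hrH
          refine ⟨L1 ++ L2, by rw [List.prod_append, hL1, hL2, hGH], fun P hP => ?_⟩
          rcases List.mem_append.1 hP with h | h
          · exact hL1' P h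
          · exact hL2' P h

theorem t_FAC : Pool.Agent.N495.TS.S_FAC := fun F hF hr => fac_aux F.natDegree F le_rfl hF hr

theorem t_NR : Pool.Agent.N495.TS.S_NR := by
  constructor
  · intro r h
    have h1 : (X : ℤ[X]) ∣ r ^ 3 := by
      refine ⟨3 * (X - 1728) * r + 2 * (X - 1728) ^ 2, ?_⟩
      linear_combination h
    obtain ⟨s, rfl⟩ := Polynomial.prime_X.dvd_of_dvd_pow h1
    have h2 : (X : ℤ[X]) * (X ^ 2 * s ^ 3 - 3 * X * (X - 1728) * s - 2 * (X - 1728) ^ 2) = 0 := by
      linear_combination h
    have h3 := (mul_eq_zero.1 h2).resolve_left Polynomial.X_ne_zero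
    have h4 := congrArg (Polynomial.eval 0) h3
    simp at h4
  · intro r h
    have hC : (X : ℤ[X]) - C 1728 = X - 1728 := by
      rw [Polynomial.C_ofNat]
    have hp : Prime ((X : ℤ[X]) - 1728) := by
      rw [← hC]
      exact Polynomial.prime_X_sub_C 1728
    have h1 : (X : ℤ[X]) - 1728 ∣ r ^ 4 := by
      refine ⟨54 * X * r ^ 2 + 216 * X * (X - 1728) * r + 243 * X ^ 2 * (X - 1728), ?_⟩
      linear_combination h
    obtain ⟨s, rfl⟩ := hp.dvd_of_dvd_pow h1
    have h2 : ((X : ℤ[X]) - 1728) ^ 2 * ((X - 1728) ^ 2 * s ^ 4 - 54 * X * (X - 1728) * s ^ 2 -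
        216 * X * (X - 1728) * s - 243 * X ^ 2) = 0 := by
      linear_combination h
    have h3 := (mul_eq_zero.1 h2).resolve_left (pow_ne_zero 2 hp.ne_zero)
    have h4 := congrArg (Polynomial.eval 1728) h3
    simp at h4

end Pool.Agent.N342.TS
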